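import Pool.Agent.Y198.DC.Stm2

/-! Part DD-PD (helper198): the range of `a` has infinite projective dimension. -/

set_option autoImplicit false

universe u

open CategoryTheory IsLocalRing

namespace Pool.Agent.Y888.DC

/-- The range is not projective. -/
theorem not_proj (R : Type u) [CommRing R] [IsLocalRing R] [IsNoetherianRing R]
    (ι : Type) [Fintype ι] [DecidableEq ι] (a b : Matrix ι ι R)
    (hb : ∀ i j, b i j ∈ maximalIdeal R) (hb0 : b ≠ 0)
    (hab : LinearMap.ker a.mulVecLin = LinearMap.range b.mulVecLin) :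
    ¬ Module.Projective R (LinearMap.range a.mulVecLin) := by
  intro hp
  have hfs : Function.Surjective a.mulVecLin.rangeRestrict :=
    LinearMap.surjective_rangeRestrict _
  obtain ⟨s, hs⟩ := Module.projective_lifting_property a.mulVecLin.rangeRestrict
    LinearMap.id hfs
  have hs' : ∀ y, a.mulVecLin.rangeRestrict (s y) = y := fun y => LinearMap.congr_fun hs y
  let q : (ι → R) →ₗ[R] (ι → R) := LinearMap.id - s.comp a.mulVecLin.rangeRestrict
  have hq : ∀ v, q v = v - s (a.mulVecLin.rangeRestrict v) := fun v => rfl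
  have hqK : ∀ v, q v ∈ LinearMap.ker a.mulVecLin := by
    intro v
    rw [LinearMap.mem_ker, hq, map_sub]
    have h1 := congrArg Subtype.val (hs' (a.mulVecLin.rangeRestrict v))
    have h2 : a.mulVecLin (s (a.mulVecLin.rangeRestrict v)) = a.mulVecLin v := h1
    rw [h2, sub_self]
  have hqid : ∀ v ∈ LinearMap.ker a.mulVecLin, q v = v := by
    intro v hv
    have h1 : a.mulVecLin.rangeRestrict v = 0 := Subtype.ext (LinearMap.mem_ker.1 hv)
    rw [hq, h1, map_zero, sub_zero]
  have hKm : LinearMap.ker a.mulVecLin ≤ (maximalIdeal R) • LinearMap.ker a.mulVecLin := by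
    intro v hv
    have h1 : ∀ j, v j ∈ maximalIdeal R := by
      rw [hab] at hv
      obtain ⟨w, rfl⟩ := hv
      intro j
      rw [Matrix.mulVecLin_apply]
      exact Ideal.sum_mem _ fun k _ => Ideal.mul_mem_right _ _ (hb j k)
    have h2 : v = ∑ j, v j • (Pi.single j 1 : ι → R) := by
      funext i
      simp [Finset.sum_apply, Pi.single_apply]
    have h3 : q v = ∑ j, v j • q (Pi.single j 1) := by
      conv_lhs => rw [h2]
      rw [map_sum]
      exact Finset.sum_congr rfl fun j _ => map_smul q _ _
    rw [← hqid v hv, h3]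
    exact Submodule.sum_mem _ fun j _ => Submodule.smul_mem_smul (h1 j) (hqK _)
  have hbot : LinearMap.ker a.mulVecLin = ⊥ :=
    Submodule.eq_bot_of_le_smul_of_le_jacobson_bot (maximalIdeal R) _
      (IsNoetherian.noetherian _) hKm (IsLocalRing.maximalIdeal_le_jacobson _)
  rw [hab, LinearMap.range_eq_bot] at hbot
  apply hb0
  ext i j
  have h4 : b.mulVecLin (Pi.single j 1) = 0 := by rw [hbot]; rfl
  have h5 := congrFun h4 i
  rw [Matrix.mulVecLin_apply, Matrix.mulVec_single_one] at h5
  exact h5

theorem not_lt (R : Type u) [CommRing R] [IsLocalRing R] [IsNoetherianRing R]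
    (ι : Type) [Fintype ι] [DecidableEq ι] (n : ℕ) : ∀ a b : Matrix ι ι R,
    (∀ i j, a i j ∈ maximalIdeal R) → (∀ i j, b i j ∈ maximalIdeal R) →
      a ≠ 0 → b ≠ 0 → LinearMap.ker a.mulVecLin = LinearMap.range b.mulVecLin →
      LinearMap.ker b.mulVecLin = LinearMap.range a.mulVecLin →
      ¬ HasProjectiveDimensionLT (ModuleCat.of R (LinearMap.range a.mulVecLin)) (n + 1) := by
  induction n with
  | zero =>
    intro a b _ hb _ hb0 hab _ hp
    rw [zero_add, ← projective_iff_hasProjectiveDimensionLT_one,
      ← IsProjective.iff_projective] at hp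
    exact not_proj R ι a b hb hb0 hab hp
  | succ n ih =>
    intro a b ha hb ha0 hb0 hab hba hp
    apply ih b a hb ha hb0 ha0 hba hab
    have hS := LinearMap.shortExact_shortComplexKer
      (LinearMap.surjective_rangeRestrict a.mulVecLin)
    have h1 := (hS.hasProjectiveDimensionLT_X₃_iff n
      (by
        change Projective (ModuleCat.of R (ι → R))
        rw [← IsProjective.iff_projective]
        infer_instance)).mp hp
    have h2 : HasProjectiveDimensionLT
      (ModuleCat.of R (LinearMap.ker a.mulVecLin.rangeRestrict)) (n + 1) := h1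
    have e : LinearMap.ker a.mulVecLin.rangeRestrict ≃ₗ[R] LinearMap.range b.mulVecLin :=
      LinearEquiv.ofEq _ _ (by rw [LinearMap.ker_rangeRestrict, hab])
    exact hasProjectiveDimensionLT_of_iso e.toModuleIso (n + 1)

theorem t : Pool.Agent.Y198.DC.S_PD.{u} := by
  intro R _ _ _ ι _ _ a b ha hb ha0 hb0 hab hba
  by_contra hne
  obtain ⟨n, hn⟩ := (projectiveDimension_ne_top_iff _).mp hne
  exact not_lt R ι n a b ha hb ha0 hb0 hab hba hn

end Pool.Agent.Y888.DC
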